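import Pool.Agent.Helper73.Pak.Common
import Pool.Agent.Helper33.Pak.RAOmega
import Pool.Agent.Helper33.Pak.Towers
import Pool.Agent.Helper98.Pak.Conj
import Pool.Agent.Helper91.Pak.GSF

/-! ### Piece EN (the tower `E_N`) -/

namespace Pool.Agent.Helper63.Pak

open IntermediateField

variable {Ω : Type} [Field Ω] [Algebra ℂ Ω] [CurveUniverse Ω]
variable {A B : RatFunc ℂ} {x x' y : ℤ → Ω} {R : IntermediateField ℂ Ω}

namespace EN

open OG

set_option linter.unusedSectionVars false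

/-- a positive rational number whose product with `F` is an integer is at least `1 / F` -/
theorem one_le_mul_of_pos {c : ℚ} {F : ℕ} (hF : 0 < F) (hc : 0 < c) {z : ℤ} (hz : c * F = z) :
    1 ≤ c * F := by
  have h1 : (0 : ℚ) < z := by
    rw [← hz]
    exact mul_pos hc (by exact_mod_cast hF)
  have h2 : 0 < z := by exact_mod_cast h1
  rw [hz]
  exact_mod_cast h2

/-- degrees of Galois stable fields are bounded -/
theorem relfinrank_le (hPT : PTFacts Ω) (hA : 2 ≤ rdeg A) (hx : Tower A x)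
    (hR : IsSmallField x R) (hE : NoExc A)
    (hpos : ∀ L : IntermediateField ℂ Ω, FF L → L ≤ R → 0 < chi L) {N : ℤ}
    {K : IntermediateField ℂ Ω} (h : GS x R N K) :
    (Cx x N).relfinrank K ≤ 2 * (2 * rdeg A ^ 4).factorial := by
  set F : ℕ := (2 * rdeg A ^ 4).factorial with hF
  have hF0 : 0 < F := Nat.factorial_pos _
  set r : ℕ := (Cx x N).relfinrank K with hr
  have hFF : FF K := h.ff hx
  have hchi := h.chi_eq hPT hx
  have h1 : 0 < chi K := hpos K hFF h.leR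
  have h2 : chi K ≤ 2 := hPT.chi_le hFF
  set c : ℚ := 2 - ∑ᶠ q, (1 - 1 / (orb x N K q : ℚ)) with hc
  have hfin : (Function.support fun q => (1 - 1 / (orb x N K q : ℚ))).Finite := by
    refine (h.orb_finite hPT hx).subset ?_
    intro q hq hq'
    rw [Function.mem_support] at hq
    apply hq
    rw [hq']
    norm_num
  have hint : ∃ z : ℤ, c * F = z := by
    have h3 : ∀ q, ∃ z : ℤ, (1 - 1 / (orb x N K q : ℚ)) * F = z := by
      intro q
      have h4 : orb x N K q ∣ F :=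
        Nat.dvd_factorial (h.orb_pos hPT hx q) (h.orb_le hPT hA hx hR hE hpos q)
      obtain ⟨m, hm⟩ := h4
      have h5 : (orb x N K q : ℚ) ≠ 0 := by
        have := h.orb_pos hPT hx q
        positivity
      refine ⟨F - m, ?_⟩
      have h6 : (F : ℚ) = orb x N K q * m := by exact_mod_cast hm
      push_cast
      rw [h6]
      field_simp
    choose z hz using h3
    have h7 : (∑ᶠ q, (1 - 1 / (orb x N K q : ℚ))) * F = ((∑ q ∈ hfin.toFinset, z q : ℤ) : ℚ) := by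
      rw [finsum_eq_sum _ hfin, Finset.sum_mul]
      push_cast
      exact Finset.sum_congr rfl fun q _ => hz q
    refine ⟨2 * F - ∑ q ∈ hfin.toFinset, z q, ?_⟩
    rw [hc, sub_mul, h7]
    push_cast
    ring
  obtain ⟨z, hz⟩ := hint
  have hr0 : (0 : ℚ) ≤ r := by positivity
  have hcpos : 0 < c := by
    by_contra hcn
    push Not at hcn
    have : (chi K : ℚ) ≤ 0 := by
      rw [hchi]
      exact mul_nonpos_of_nonneg_of_nonpos hr0 hcn
    have h8 : (0 : ℚ) < chi K := by exact_mod_cast h1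
    linarith
  have h9 := one_le_mul_of_pos hF0 hcpos hz
  have h10 : (r : ℚ) * 1 ≤ r * (c * F) := mul_le_mul_of_nonneg_left h9 hr0
  have h11 : (r : ℚ) * (c * F) = chi K * F := by
    rw [hchi]
    ring
  have h12 : (chi K : ℚ) ≤ 2 := by exact_mod_cast h2
  have h13 : (chi K : ℚ) * F ≤ 2 * F := mul_le_mul_of_nonneg_right h12 (by positivity)
  have h14 : (r : ℚ) ≤ 2 * F := by linarith
  exact_mod_cast h14

theorem eq_of_relfinrank_le (hPT : PTFacts Ω) {K₀ K L : IntermediateField ℂ Ω} (hK₀ : FF K₀)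
    (hK : FF K) (hL : FF L) (h0 : K₀ ≤ K) (h1 : K ≤ L)
    (hle : K₀.relfinrank L ≤ K₀.relfinrank K) : K = L := by
  have h2 := relfinrank_mul_relfinrank h0 h1
  have h3 : 0 < K₀.relfinrank K := hPT.relfinrank_pos hK₀ hK h0
  have h4 : 0 < K.relfinrank L := hPT.relfinrank_pos hK hL h1
  have h5 : K.relfinrank L ≤ 1 := by
    by_contra h6
    push Not at h6
    have : K₀.relfinrank K * 2 ≤ K₀.relfinrank K * K.relfinrank L := Nat.mul_le_mul_left _ h6
    omega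
  exact le_antisymm h1 (relfinrank_eq_one_iff.1 (by omega))

theorem cx_fg (x : ℤ → Ω) (n : ℤ) : (Cx x n).FG := ⟨{x n}, by simp⟩

theorem mapF_fg (g : Ω ≃ₐ[ℂ] Ω) {K : IntermediateField ℂ Ω} (h : K.FG) : (mapF g K).FG := by
  classical
  obtain ⟨s, hs⟩ := h
  refine ⟨s.image g, ?_⟩
  rw [mapF, ← hs, adjoin_map]
  congr 1
  simp

theorem mapF_cx (g : Ω ≃ₐ[ℂ] Ω) {n m : ℤ} (h : g (x n) = x m) : mapF g (Cx x n) = Cx x m := by
  rw [mapF, Cx, adjoin_map, Set.image_singleton]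
  congr 2

theorem mapF_mono (g : Ω ≃ₐ[ℂ] Ω) {K L : IntermediateField ℂ Ω} (h : K ≤ L) :
    mapF g K ≤ mapF g L := by
  intro z hz
  rw [mem_mapF] at hz ⊢
  exact h hz

theorem mapF_sup (g : Ω ≃ₐ[ℂ] Ω) (K L : IntermediateField ℂ Ω) :
    mapF g (K ⊔ L) = mapF g K ⊔ mapF g L := map_sup K L _

theorem zpow_apply {σ : Ω ≃ₐ[ℂ] Ω} (hσ : ∀ n, σ (x n) = x (n + 1)) (m : ℤ) (n : ℤ) :
    (σ ^ m) (x n) = x (n + m) := by
  obtain ⟨k, rfl | rfl⟩ := m.eq_nat_or_neg
  · rw [zpow_natCast, pow_apply hσ]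
  · rw [zpow_neg, zpow_natCast, inv_pow_apply hσ]
    congr 1

theorem mapF_zpow_eq {g : Ω ≃ₐ[ℂ] Ω} {K : IntermediateField ℂ Ω} (h : mapF g K = K) (n : ℤ) :
    mapF (g ^ n) K = K := by
  obtain ⟨k, rfl | rfl⟩ := n.eq_nat_or_neg
  · rw [zpow_natCast, mapF_pow_eq h]
  · rw [zpow_neg, zpow_natCast]
    exact mapF_inv_eq (mapF_pow_eq h k)

end EN

open EN OG in
theorem exists_EFam (hPT : PTFacts Ω) (hA : 2 ≤ rdeg A) (hx : Tower A x)
    (hR : IsSmallField x R) (hE : NoExc A)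
    (hpos : ∀ L : IntermediateField ℂ Ω, FF L → L ≤ R → 0 < chi L) {σ : Ω ≃ₐ[ℂ] Ω}
    (hσ : ∀ n, σ (x n) = x (n + 1)) : ∃ E nu M, EFam x R σ E nu M := by
  classical
  have hxR : ∀ n, x n ∈ R := hR.tower_mem hPT hA hx
  have hσR : mapF σ R = R := hR.map_shift hPT hA hx hσ
  have hCR : ∀ n, Cx x n ≤ R := fun n => adjoin_simple_le_iff.2 (hxR n)
  -- a Galois stable field of maximal degree
  set S : Set ℕ := {r | ∃ N K, GS x R N K ∧ (Cx x N).relfinrank K = r} with hS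
  have hSne : S.Nonempty := by
    obtain ⟨N₀, hN₀⟩ := hR.exists_GS hPT hA hx (cx_fg x 0) (hCR 0)
    obtain ⟨K, hK, -⟩ := hN₀ N₀ le_rfl
    exact ⟨_, N₀, K, hK, rfl⟩
  have hSbdd : BddAbove S := ⟨_, fun r hr => by
    obtain ⟨N, K, hK, rfl⟩ := hr
    exact relfinrank_le hPT hA hx hR hE hpos hK⟩
  obtain ⟨N₀, K₀, hK₀, hmax⟩ := Nat.sSup_mem hSne hSbdd
  have hle : ∀ {N K}, GS x R N K → (Cx x N).relfinrank K ≤ (Cx x N₀).relfinrank K₀ := by
    intro N K hK
    rw [hmax]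
    exact le_csSup hSbdd ⟨N, K, hK, rfl⟩
  -- the fields `K N = K₀ ⊔ C(x N)`
  have hup : ∀ N, N₀ ≤ N → GS x R N (K₀ ⊔ Cx x N) ∧
      (Cx x N).relfinrank (K₀ ⊔ Cx x N) = (Cx x N₀).relfinrank K₀ := by
    intro N hN
    obtain ⟨k, rfl⟩ := Int.le.dest hN
    exact ⟨hK₀.up hPT hA hx hxR k, hK₀.stable k⟩
  -- any field of finite type in `R` is eventually contained in `K N`
  have hcof : ∀ J : IntermediateField ℂ Ω, J.FG → J ≤ R →
      ∃ N₁, ∀ N, N₁ ≤ N → N₀ ≤ N ∧ J ≤ K₀ ⊔ Cx x N := by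
    intro J hJ hJR
    have h1 : (K₀ ⊔ J).FG := fg_sup hK₀.fg hJ
    obtain ⟨N₁, hN₁⟩ := hR.exists_GS hPT hA hx h1 (sup_le hK₀.leR hJR)
    refine ⟨max N₀ N₁, fun N hN => ?_⟩
    have hN0 : N₀ ≤ N := (le_max_left _ _).trans hN
    have hN1 : N₁ ≤ N := (le_max_right _ _).trans hN
    obtain ⟨L, hL, hJL⟩ := hN₁ N hN1
    refine ⟨hN0, ?_⟩
    have hKL : K₀ ⊔ Cx x N ≤ L := sup_le (le_sup_left.trans hJL) hL.le
    have h2 : K₀ ⊔ Cx x N = L := by
      refine eq_of_relfinrank_le hPT (hx.ff N) ((hup N hN0).1.ff hx) (hL.ff hx) le_sup_right hKL ?_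
      rw [(hup N hN0).2]
      exact hle hL
    rw [h2]
    exact le_sup_right.trans hJL
  -- `σ` maps `K (N - 1)` onto `K N` for large `N`
  obtain ⟨N₁, hN₁⟩ := hcof (mapF σ K₀) (mapF_fg σ hK₀.fg) (by
    rw [← hσR]; exact mapF_mono σ hK₀.leR)
  set N₂ : ℤ := max N₁ (N₀ + 1) with hN₂
  have hσK : ∀ N, N₂ ≤ N → mapF σ (K₀ ⊔ Cx x (N - 1)) = K₀ ⊔ Cx x N := by
    intro N hN
    have h1 : N₁ ≤ N := (le_max_left _ _).trans hN
    have h2 : N₀ + 1 ≤ N := (le_max_right _ _).trans hN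
    have h3 : GS x R (N - 1) (K₀ ⊔ Cx x (N - 1)) := (hup (N - 1) (by omega)).1
    have h4 := (h3.map_shift hPT hA hx hR hσ).1
    rw [sub_add_cancel] at h4
    have h5 : mapF σ (K₀ ⊔ Cx x (N - 1)) ≤ K₀ ⊔ Cx x N := by
      rw [mapF_sup, mapF_cx σ (m := N) (by rw [hσ, sub_add_cancel])]
      exact sup_le (hN₁ N h1).2 le_sup_right
    refine eq_of_relfinrank_le hPT (hx.ff N) (h4.ff hx) ((hup N (by omega)).1.ff hx) h4.le h5 ?_
    rw [(hup N (by omega)).2, ← (hup (N - 1) (by omega)).2]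
    apply le_of_eq
    have h6 : mapF σ (Cx x (N - 1)) = Cx x N := mapF_cx σ (by rw [hσ, sub_add_cancel])
    conv_rhs => rw [← h6]
    exact (relfinrank_map_map _ _ _).symm
  -- definition of the family
  set K : IntermediateField ℂ Ω := K₀ ⊔ Cx x N₂ with hK
  have hN₀₂ : N₀ ≤ N₂ := by
    have : N₀ + 1 ≤ N₂ := le_max_right _ _
    omega
  have hKGS : GS x R N₂ K := (hup N₂ hN₀₂).1
  set E : ℤ → IntermediateField ℂ Ω := fun N => mapF (σ ^ (N - N₂)) K with hEdef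
  have hcx : ∀ N, mapF (σ ^ (N - N₂)) (Cx x N₂) = Cx x N := by
    intro N
    apply mapF_cx
    rw [zpow_apply hσ]
    congr 1
    ring
  have hEN : ∀ k : ℕ, E (N₂ + k) = K₀ ⊔ Cx x (N₂ + k) := by
    intro k
    induction k with
    | zero => simp only [hEdef, hK, Nat.cast_zero, add_zero, sub_self, zpow_zero, mapF_one]
    | succ k ih =>
      have h1 : E (N₂ + (k + 1 : ℕ)) = mapF σ (E (N₂ + k)) := by
        simp only [hEdef]
        rw [← mapF_mul]
        congr 1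
        rw [← zpow_one_add]
        congr 1
        push_cast
        ring
      rw [h1, ih]
      have h2 := hσK (N₂ + (k + 1 : ℕ)) (by push_cast; omega)
      have h3 : N₂ + ((k + 1 : ℕ) : ℤ) - 1 = N₂ + k := by push_cast; ring
      rw [h3] at h2
      exact h2
  refine ⟨E, orb x N₂ K, 2 * rdeg A ^ 4, ?_, ?_, ?_, ?_, ?_, ?_, ?_, ?_, ?_⟩
  · intro N
    exact mapF_fg _ hKGS.fg
  · intro N
    rw [← hcx N]
    exact mapF_mono _ hKGS.le
  · intro N
    rw [← mapF_zpow_eq hσR (N - N₂)]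
    exact mapF_mono _ hKGS.leR
  · intro N g hg z hz
    rw [← hcx N, fixes_mapF] at hg
    simp only [hEdef] at hz ⊢
    rw [mem_mapF] at hz ⊢
    have h1 := hKGS.gal _ hg _ hz
    have h2 : ((σ ^ (N - N₂))⁻¹ * g * σ ^ (N - N₂)) ((σ ^ (N - N₂)).symm z) =
        (σ ^ (N - N₂)).symm (g z) := by
      rw [AlgEquiv.mul_apply, AlgEquiv.mul_apply, AlgEquiv.apply_symm_apply]
      rfl
    rwa [h2] at h1
  · intro N
    have h1 : E (N₂ + 1) = K ⊔ Cx x (N₂ + 1) := by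
      have := hEN 1
      rw [Nat.cast_one] at this
      rw [this, hK, sup_assoc]
      congr 1
      exact (sup_eq_right.2 (hx.le N₂ 1)).symm
    have h2 : E (N₂ + 1) = mapF σ K := by
      simp only [hEdef]
      rw [add_sub_cancel_left, zpow_one]
    have h3 : E (N + 1) = mapF (σ ^ (N - N₂)) (mapF σ K) := by
      simp only [hEdef]
      rw [← mapF_mul]
      congr 1
      rw [← zpow_add_one]
      congr 1
      ring
    rw [h3, ← h2, h1, mapF_sup]
    congr 1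
    apply mapF_cx
    rw [zpow_apply hσ]
    congr 1
    ring
  · intro N
    simp only [hEdef]
    rw [← mapF_mul]
    congr 1
    rw [← zpow_one_add]
    congr 1
    ring
  · intro z hz
    obtain ⟨N₃, hN₃⟩ := hcof ℂ⟮z⟯ ⟨{z}, by simp⟩ (adjoin_simple_le_iff.2 hz)
    obtain ⟨-, h1⟩ := hN₃ (max N₂ N₃) (le_max_right _ _)
    obtain ⟨k, hk⟩ := Int.le.dest (le_max_left N₂ N₃)
    refine ⟨N₂ + k, ?_⟩
    rw [hEN, hk]
    exact h1 (mem_adjoin_simple_self ℂ z)
  · intro v N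
    set τ : Ω ≃ₐ[ℂ] Ω := σ ^ (N - N₂) with hτ
    have h1 : v = τ • (τ⁻¹ • v) := (smul_inv_smul _ _).symm
    have h2 : e v (Cx x N) (E N) = e (τ⁻¹ • v) (Cx x N₂) K := by
      simp only [hEdef]
      rw [← hcx N, ← hτ]
      conv_lhs => rw [h1]
      exact e_smul _ _ _ _
    have h3 : val v (x N) = val (τ⁻¹ • v) (x N₂) := by
      have h4 : τ (x N₂) = x N := by
        rw [hτ, zpow_apply hσ]
        congr 1
        ring
      rw [← h4]
      conv_lhs => rw [h1]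
      exact hPT.val_smul _ _ _
    rw [h2, h3]
    exact hKGS.e_eq_orb hPT hx _
  · intro q
    exact hKGS.orb_le hPT hA hx hR hE hpos q

end Pool.Agent.Helper63.Pak
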