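import Pool.Agent.Helper73.Pak.Common
import Pool.Agent.Helper33.Pak.RAOmega
import Pool.Agent.Helper33.Pak.Towers
import Pool.Agent.Helper98.Pak.Conj
import Pool.Agent.Helper91.Pak.GSF

/-! ### Piece OG (orbit growth) -/

namespace Pool.Agent.Helper63.Pak

open IntermediateField

variable {Ω : Type} [Field Ω] [Algebra ℂ Ω] [CurveUniverse Ω]
variable {A B : RatFunc ℂ} {x x' y : ℤ → Ω} {R : IntermediateField ℂ Ω}

namespace OG

set_option linter.unusedSectionVars false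

/-- the orbit of `x j` under the stabiliser of `x 0` and `R` -/
def orbit (x : ℤ → Ω) (R : IntermediateField ℂ Ω) (j : ℕ) : Set Ω :=
  {w | ∃ g : Ω ≃ₐ[ℂ] Ω, g (x 0) = x 0 ∧ mapF g R = R ∧ g (x j) = w}

theorem orbit_finite (hA : 2 ≤ rdeg A) (hx : Tower A x) (j : ℕ) : (orbit x R j).Finite := by
  have hA1 : 1 ≤ rdeg A := by omega
  have h1 : ev (iter A j) (x j) = x 0 := by
    rw [ev_iter (hx.trans _) hA1]
    have : ∀ (k : ℕ) (n : ℤ), (ev A)^[k] (x (n + k)) = x n := by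
      intro k
      induction k with
      | zero => intro n; simp
      | succ k ih =>
        intro n
        rw [Function.iterate_succ_apply]
        have := hx.step (n + k)
        rw [show n + ((k + 1 : ℕ) : ℤ) = n + k + 1 by push_cast; ring, this, ih]
    have h := this j 0
    rwa [zero_add] at h
  have hd : 1 ≤ rdeg (iter A j) := by
    rw [rdeg_iter]
    exact Nat.one_le_pow _ _ (by omega)
  refine (finite_ev_eq (A := iter A j) (hx.trans 0) hd).subset ?_
  rintro w ⟨g, hg0, -, rfl⟩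
  show ev (iter A j) (g (x j)) = x 0
  rw [← ev_map, h1, hg0]

theorem orbit_step (hx : Tower A x) {γ : Ω ≃ₐ[ℂ] Ω} {j : ℕ} (h0 : γ (x 0) = x 0)
    (hj : γ (x j) = x j) (hj1 : γ (x (j + 1 : ℕ)) ≠ x (j + 1 : ℕ)) (hR : mapF γ R = R)
    (hfin : (orbit x R (j + 1)).Finite) :
    2 * (orbit x R j).ncard ≤ (orbit x R (j + 1)).ncard := by
  classical
  have hstep : ∀ g : Ω ≃ₐ[ℂ] Ω, ev A (g (x (j + 1 : ℕ))) = g (x j) := by
    intro g
    rw [← ev_map]
    have := hx.step j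
    push_cast
    rw [this]
  have himg : ev A '' (orbit x R (j + 1)) = orbit x R j := by
    ext w
    constructor
    · rintro ⟨_, ⟨g, hg0, hgR, rfl⟩, rfl⟩
      exact ⟨g, hg0, hgR, (hstep g).symm⟩
    · rintro ⟨g, hg0, hgR, rfl⟩
      exact ⟨_, ⟨g, hg0, hgR, rfl⟩, hstep g⟩
  set s : Finset Ω := hfin.toFinset with hs
  have hmem : ∀ w, w ∈ s ↔ w ∈ orbit x R (j + 1) := fun w => hfin.mem_toFinset
  have hcard : (orbit x R (j + 1)).ncard = s.card := Set.ncard_eq_toFinset_card _ hfin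
  have hcard' : (orbit x R j).ncard = (s.image (ev A)).card := by
    rw [← himg, ← Set.ncard_coe_finset, Finset.coe_image, hs, Set.Finite.coe_toFinset]
  rw [hcard, hcard']
  apply Finset.mul_card_image_le_card
  intro b hb
  obtain ⟨w, hw, rfl⟩ := Finset.mem_image.1 hb
  obtain ⟨g, hg0, hgR, rfl⟩ := (hmem w).1 hw
  have hne : g (x (j + 1 : ℕ)) ≠ (g * γ) (x (j + 1 : ℕ)) := by
    intro h
    exact hj1 (g.injective h).symm
  refine le_trans (Finset.card_pair hne).ge (Finset.card_le_card ?_)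
  intro z hz
  rw [Finset.mem_insert, Finset.mem_singleton] at hz
  rw [Finset.mem_filter]
  rcases hz with rfl | rfl
  · exact ⟨hw, rfl⟩
  · refine ⟨(hmem _).2 ⟨g * γ, ?_, ?_, rfl⟩, ?_⟩
    · rw [AlgEquiv.mul_apply, h0, hg0]
    · rw [mapF_mul, hR, hgR]
    · rw [hstep, hstep, AlgEquiv.mul_apply, hj]

end OG

open OG in
theorem orbit_growth (hPT : PTFacts Ω) (hA : 2 ≤ rdeg A) (hx : Tower A x) (hx' : Tower A x')
    (hR : IsSmallField x R) (h0 : x 0 = x' 0) (h1 : x 1 ≠ x' 1) (hc : Close x x') (j : ℕ) :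
    {w | ∃ g : Ω ≃ₐ[ℂ] Ω, g (x 0) = x 0 ∧ mapF g R = R ∧ g (x j) = w}.Finite ∧
    2 ^ j ≤ {w | ∃ g : Ω ≃ₐ[ℂ] Ω, g (x 0) = x 0 ∧ mapF g R = R ∧ g (x j) = w}.ncard := by
  have hA1 : 1 ≤ rdeg A := by omega
  refine ⟨orbit_finite hA hx j, ?_⟩
  change 2 ^ j ≤ (orbit x R j).ncard
  obtain ⟨γ, hγ⟩ := Tower.exists_conj hA1 hx hx'
  obtain ⟨σ, hσ⟩ := exists_shift hA1 hx
  have hσR : mapF σ R = R := hR.map_shift hPT hA hx hσ
  have hγR : mapF γ R = R := by
    have h2 := hR.map hPT γ hx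
    have h3 : (fun n => γ (x n)) = x' := funext hγ
    rw [h3] at h2
    exact h2.unique (hR.of_close hPT hA hx hx' hc)
  have hσσR : ∀ k : ℕ, mapF (σ ^ k)⁻¹ R = R := fun k => mapF_inv_eq (mapF_pow_eq hσR k)
  induction j with
  | zero =>
    rw [pow_zero]
    refine (Set.ncard_pos (orbit_finite hA hx 0)).2 ?_
    exact ⟨x 0, 1, rfl, mapF_one R, by simp⟩
  | succ j ih =>
    have hg : ∀ i : ℕ, i ≤ j → (σ ^ j * γ * (σ ^ j)⁻¹) (x i) = x i := by
      intro i hi
      rw [AlgEquiv.mul_apply, AlgEquiv.mul_apply, inv_pow_apply hσ, hγ]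
      have : x' ((i : ℤ) - j) = x ((i : ℤ) - j) :=
        (hx.eq_of_le hx' h0 (by omega)).symm
      rw [this, pow_apply hσ]
      congr 1
      ring
    have hstep := orbit_step (R := R) (γ := σ ^ j * γ * (σ ^ j)⁻¹) (j := j) hx
      (by simpa using hg 0 (Nat.zero_le _)) (hg j le_rfl) (by
        rw [AlgEquiv.mul_apply, AlgEquiv.mul_apply, inv_pow_apply hσ, hγ]
        intro h
        have h2 : x ((j + 1 : ℕ) : ℤ) = (σ ^ j) (x 1) := by
          rw [pow_apply hσ]
          congr 1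
          push_cast
          ring
        rw [h2] at h
        have h3 := (σ ^ j).injective h
        have h4 : (((j + 1 : ℕ) : ℤ) - j) = 1 := by push_cast; ring
        rw [h4] at h3
        exact h1 h3.symm) (by
        rw [mapF_mul, mapF_mul, hσσR, hγR, mapF_pow_eq hσR]) (orbit_finite hA hx (j + 1))
    calc 2 ^ (j + 1) = 2 * 2 ^ j := by ring
      _ ≤ 2 * (orbit x R j).ncard := Nat.mul_le_mul_left 2 ih
      _ ≤ _ := hstep

end Pool.Agent.Helper63.Pak
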