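import Pool.Agent.Helper63.Pak.Basic

/-! Formal lemmas on `mapF` and shifts of towers -/

namespace Pool.Agent.Helper63.Pak

open IntermediateField

variable {Ω : Type} [Field Ω] [Algebra ℂ Ω]
variable {x : ℤ → Ω}

namespace OG

theorem mapF_mul (g h : Ω ≃ₐ[ℂ] Ω) (K : IntermediateField ℂ Ω) :
    mapF (g * h) K = mapF g (mapF h K) := by
  ext z
  rw [mem_mapF, mem_mapF, mem_mapF]
  rfl

theorem mapF_one (K : IntermediateField ℂ Ω) : mapF (1 : Ω ≃ₐ[ℂ] Ω) K = K := by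
  ext z
  rw [mem_mapF]
  rfl

theorem mapF_inv_eq {g : Ω ≃ₐ[ℂ] Ω} {K K' : IntermediateField ℂ Ω} (h : mapF g K = K') :
    mapF g⁻¹ K' = K := by
  rw [← h, ← mapF_mul, inv_mul_cancel, mapF_one]

theorem mapF_pow_eq {g : Ω ≃ₐ[ℂ] Ω} {K : IntermediateField ℂ Ω} (h : mapF g K = K) (n : ℕ) :
    mapF (g ^ n) K = K := by
  induction n with
  | zero => rw [pow_zero, mapF_one]
  | succ n ih => rw [pow_succ, mapF_mul, h, ih]

theorem pow_apply {σ : Ω ≃ₐ[ℂ] Ω} (hσ : ∀ n, σ (x n) = x (n + 1)) (k : ℕ) (n : ℤ) :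
    (σ ^ k) (x n) = x (n + k) := by
  induction k generalizing n with
  | zero => simp
  | succ k ih =>
    rw [pow_succ, AlgEquiv.mul_apply, hσ, ih]
    congr 1
    push_cast
    ring

theorem inv_pow_apply {σ : Ω ≃ₐ[ℂ] Ω} (hσ : ∀ n, σ (x n) = x (n + 1)) (k : ℕ) (n : ℤ) :
    (σ ^ k)⁻¹ (x n) = x (n - k) := by
  have h := pow_apply hσ k (n - k)
  rw [sub_add_cancel] at h
  rw [← h, ← AlgEquiv.mul_apply, inv_mul_cancel]
  rfl


end OG

end Pool.Agent.Helper63.Pak
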